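import Mathlib
import Pool.Agent.U762.RP.Stm

set_option autoImplicit false

namespace Pool.Agent.U981.RP

open Finset MeasureTheory Filter Pool.Agent.U762.RP

theorem summ (C : ℝ) : Summable fun x : ℤ => C * ((2 + |(x : ℝ)|) ^ 3)⁻¹ := by
  have h0 : Summable fun n : ℕ => (((n : ℝ)) ^ 3)⁻¹ := by
    have := Real.summable_nat_pow_inv (p := 3)
    exact this.2 (by norm_num)
  have h1 : Summable fun n : ℕ => ((2 + (n : ℝ)) ^ 3)⁻¹ := by
    have h2 := (summable_nat_add_iff 2).2 h0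
    refine h2.congr fun n => ?_
    push_cast
    ring
  apply Summable.mul_left
  apply Summable.of_nat_of_neg
  · refine h1.congr fun n => ?_
    simp
  · refine h1.congr fun n => ?_
    simp

theorem decay (lam : ℝ) (hl0 : 0 < lam) (hl1 : lam < 1) (y : ℝ) (hy : 2 ≤ y) :
    lam ^ ⌈(4 / (-Real.log lam)) * Real.log y⌉₊ ≤ (y ^ 4)⁻¹ := by
  have hlog : Real.log lam < 0 := Real.log_neg hl0 hl1
  have hy0 : 0 < y := by linarith
  have h1 : (4 / (-Real.log lam)) * Real.log y ≤ ⌈(4 / (-Real.log lam)) * Real.log y⌉₊ := Nat.le_ceil _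
  calc lam ^ ⌈(4 / (-Real.log lam)) * Real.log y⌉₊
      = lam ^ ((⌈(4 / (-Real.log lam)) * Real.log y⌉₊ : ℕ) : ℝ) := (Real.rpow_natCast _ _).symm
    _ ≤ lam ^ ((4 / (-Real.log lam)) * Real.log y) :=
        Real.rpow_le_rpow_of_exponent_ge hl0 hl1.le h1
    _ = (y ^ 4)⁻¹ := by
        rw [Real.rpow_def_of_pos hl0]
        have h2 : Real.log lam * ((4 / (-Real.log lam)) * Real.log y) = -(4 * Real.log y) := by
          have h4 : Real.log lam ≠ 0 := hlog.ne
          field_simp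
        rw [h2, Real.exp_neg]
        congr 1
        have h3 : 4 * Real.log y = Real.log (y ^ 4) := by
          rw [Real.log_pow]; norm_num
        rw [h3, Real.exp_log (by positivity)]

theorem t_FIN : S_ANA → S_PRB → S_DET → S_FIN := by
  intro hA hP hD d m r hR hprod ε hε0 hε1
  obtain ⟨K, hK⟩ := hA d m r hR hprod ε hε0 hε1
  refine ⟨K, fun B μ _ hμ hw => ?_⟩
  set B' : ℕ := max B (d ^ K) with hB'
  have hμ' : μ {u : ℤ | (B' : ℤ) < |u|} = 0 := by
    refine measure_mono_null (fun u hu => ?_) hμ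
    have h1 : (B : ℤ) ≤ (B' : ℤ) := by exact_mod_cast le_max_left _ _
    exact lt_of_le_of_lt h1 hu
  obtain ⟨M, C, lam, hM, hC, hl0, hl1, h⟩ := hK B' (le_max_right _ _)
  have hsum1 : ∑ u ∈ Icc (-(B' : ℤ)) B', μ.real {u} ≤ 1 := by
    rw [sum_measureReal_singleton]
    exact measureReal_le_one
  have hQ := h (fun u => μ.real {u}) (fun u => measureReal_nonneg) hsum1 hw
  have hlog : Real.log lam < 0 := Real.log_neg hl0 hl1
  obtain ⟨c', hc', hdet⟩ := hD d m r B' M (4 / (-Real.log lam)) hR.two_le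
    (div_pos (by norm_num) (by linarith))
  refine ⟨c', hc', ?_⟩
  set P : Measure (ℤ → ℤ) := Measure.infinitePi fun _ : ℤ => μ with hPdef
  -- Borel-Cantelli
  have hbc : ∀ᵐ ω ∂P, {x : ℤ | ω ∈ {ω : ℤ → ℤ | Long d m r M
      ⌈(4 / (-Real.log lam)) * Real.log (2 + |(x : ℝ)|)⌉₊ x ω}}.Finite := by
    apply ae_finite_setOfPred_mem
    have hle : ∀ x : ℤ, P {ω : ℤ → ℤ | Long d m r M
        ⌈(4 / (-Real.log lam)) * Real.log (2 + |(x : ℝ)|)⌉₊ x ω} ≤
        ENNReal.ofReal (C * ((2 + |(x : ℝ)|) ^ 3)⁻¹) := by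
      intro x
      refine (hP d m r μ B' hμ' M _ x).trans (ENNReal.ofReal_le_ofReal ?_)
      refine (hQ _ x).trans ?_
      have hy : (2 : ℝ) ≤ 2 + |(x : ℝ)| := by linarith [abs_nonneg (x : ℝ)]
      have h1 := decay lam hl0 hl1 _ hy
      have hy0 : 0 < 2 + |(x : ℝ)| := by linarith
      calc C * lam ^ ⌈(4 / (-Real.log lam)) * Real.log (2 + |(x : ℝ)|)⌉₊ * (1 + |(x : ℝ)|)
          ≤ C * ((2 + |(x : ℝ)|) ^ 4)⁻¹ * (2 + |(x : ℝ)|) := by
            gcongr
            norm_num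
        _ = C * ((2 + |(x : ℝ)|) ^ 3)⁻¹ := by
            field_simp
    have hs := (summ C)
    have h2 : ∑' x : ℤ, ENNReal.ofReal (C * ((2 + |(x : ℝ)|) ^ 3)⁻¹) ≠ ⊤ := by
      rw [← ENNReal.ofReal_tsum_of_nonneg (fun x => by positivity) hs]
      exact ENNReal.ofReal_ne_top
    exact ne_top_of_le_ne_top h2 (ENNReal.tsum_le_tsum hle)
  have hbd : ∀ᵐ ω ∂P, ∀ x : ℤ, |ω x| ≤ (B' : ℤ) := by
    rw [ae_all_iff]
    intro x
    have h1 : ∀ᵐ u ∂μ, |u| ≤ (B' : ℤ) := by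
      rw [ae_iff]
      simpa only [not_le] using hμ'
    exact (measurePreserving_eval_infinitePi (fun _ : ℤ => μ) x).quasiMeasurePreserving.ae h1
  filter_upwards [hbc, hbd] with ω h1 h2
  exact hdet ω h2 h1

end Pool.Agent.U981.RP
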